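import Pool.Agent.V11307.QHyp

set_option autoImplicit false

/-!
# `∑_{k<mn} (q;q²)_k² (q²;q⁴)_k q^{2k} / ((q²;q²)_k² (q⁴;q⁴)_k)` modulo `Φ_n(q)²`, `n ≡ 1 (mod 4)`
-/

namespace Pool.Agent.Results.MP_c25fd9_nt.Legendre

open Polynomial Finset

noncomputable section

/-- The indeterminate `q` of the field `ℚ(q)`. -/
def q : RatFunc ℚ := RatFunc.X

/-- The `q`-shifted factorial `(x;t)_k = ∏_{j<k} (1 - x t^j)`. -/
def qPoch (x t : RatFunc ℚ) (k : ℕ) : RatFunc ℚ := ∏ j ∈ range k, (1 - x * t ^ j)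

/-- `a_k(q) = (q;q²)_k² (q²;q⁴)_k q^{2k} / ((q²;q²)_k² (q⁴;q⁴)_k)`. -/
def a (k : ℕ) : RatFunc ℚ :=
  qPoch q (q ^ 2) k ^ 2 * qPoch (q ^ 2) (q ^ 4) k * q ^ (2 * k) /
    (qPoch (q ^ 2) (q ^ 2) k ^ 2 * qPoch (q ^ 4) (q ^ 4) k)

/-- `S_{m,n}(q) = ∑_{k<mn} a_k(q)`. -/
def S (m n : ℕ) : RatFunc ℚ := ∑ k ∈ range (m * n), a k

/-- `C_n(q) = [n] (q³;q⁴)_{(n-1)/2} / (q⁵;q⁴)_{(n-1)/2}`. -/
def Cn (n : ℕ) : RatFunc ℚ :=
  (∑ i ∈ range n, q ^ i) * qPoch (q ^ 3) (q ^ 4) ((n - 1) / 2) / qPoch (q ^ 5) (q ^ 4) ((n - 1) / 2)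

/-- The rising factorial `(x)_k = x (x+1) ⋯ (x+k-1)`. -/
def rising (x : ℚ) (k : ℕ) : ℚ := ∏ j ∈ range k, (x + j)

/-- `T_m = ∑_{k<m} (1/2)_k³ / k!³`. -/
def T (m : ℕ) : ℚ := ∑ k ∈ range m, rising (1 / 2) k ^ 3 / (k.factorial : ℚ) ^ 3

/-- `F ≡ G (mod Φ_n(q)²)`: `F - G = Φ_n² A/B` with `B` coprime to `Φ_n`. -/
def CongSq (n : ℕ) (F G : RatFunc ℚ) : Prop :=
  ∃ A B : ℚ[X], IsCoprime B (cyclotomic n ℚ) ∧
    F - G = algebraMap ℚ[X] (RatFunc ℚ) (cyclotomic n ℚ ^ 2 * A) / algebraMap ℚ[X] (RatFunc ℚ) B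

open V11307.Q V11307.WZ

/-- undeformed factor -/
def w (g : RatFunc ℚ) (k : ℕ) : RatFunc ℚ :=
  g ^ (2 * k) * ∏ u ∈ range k, (1 - g ^ (4 * u + 2)) / (1 - g ^ (4 * u + 4))

/-- closed form factor -/
def r (g : RatFunc ℚ) (i : ℕ) : RatFunc ℚ := (1 - g ^ (4 * i + 2)) / (1 - g ^ (4 * i + 4))

/-- products of closed form factors over a block -/
theorem block_r {κ : ℕ} (hκ : 0 < κ) (t : ℕ) :
    ∃ β, I (4 * κ + 1) 2 (β - 1) ∧ β ∈ R (4 * κ + 1) ∧
      ∏ j ∈ range (4 * κ + 1), r V11307.Q.q (κ + (t * (4 * κ + 1) + j)) =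
        r (V11307.Q.q ^ (4 * κ + 1)) t * β := by
  set n := 4 * κ + 1 with hn
  have hn0 : 0 < n := by omega
  have hY : I n 1 (V11307.Q.q ^ ((4 * t + 1) * n) - 1) := I.symm (I_one_sub_nat hn0 (dvd_mul_left _ _))
  obtain ⟨h1, hU1, hU3⟩ := lemB hκ hn hY
  refine ⟨_, h1, (hU1.div hU3).2.1, ?_⟩
  have e1 : ∏ j ∈ range n, r V11307.Q.q (κ + (t * n + j)) =
      (∏ j ∈ range n, (1 - V11307.Q.q ^ ((4 * t + 1) * n) * V11307.Q.q ^ (4 * j + 1))) /
      ∏ j ∈ range n, (1 - V11307.Q.q ^ ((4 * t + 1) * n) * V11307.Q.q ^ (4 * j + 3)) := by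
    rw [← prod_div_distrib]
    refine prod_congr rfl fun j _ => ?_
    rw [r, ← pow_add, ← pow_add]
    congr 3
    · rw [hn]; ring
    · rw [hn]; ring
  rw [e1, ← mul_prod_erase (range n) (fun j => 1 - V11307.Q.q ^ ((4 * t + 1) * n) * V11307.Q.q ^ (4 * j + 1))
    (mem_range.2 (show κ < n by omega)), ← mul_prod_erase (range n)
    (fun j => 1 - V11307.Q.q ^ ((4 * t + 1) * n) * V11307.Q.q ^ (4 * j + 3))
    (mem_range.2 (show 3 * κ < n by omega)), mul_div_mul_comm]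
  congr 1
  rw [r, ← pow_add, ← pow_add, ← pow_mul, ← pow_mul]
  congr 3
  · rw [hn]; ring
  · rw [hn]; ring

theorem block_r_all {κ : ℕ} (hκ : 0 < κ) (l : ℕ) :
    ∃ β, I (4 * κ + 1) 2 (β - 1) ∧ β ∈ R (4 * κ + 1) ∧
      ∏ j ∈ range (l * (4 * κ + 1)), r V11307.Q.q (κ + j) =
        (∏ t ∈ range l, r (V11307.Q.q ^ (4 * κ + 1)) t) * β := by
  induction l with
  | zero => exact ⟨1, by rw [sub_self]; exact I.zero, one_mem _, by simp⟩
  | succ l ih =>
    obtain ⟨β, h1, h2, h3⟩ := ih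
    obtain ⟨β', h1', h2', h3'⟩ := block_r hκ l
    refine ⟨β * β', ?_, mul_mem h2 h2', ?_⟩
    · have := I.mul_congr h1 h1' (one_mem _) h2'
      rwa [mul_one] at this
    · rw [add_mul, one_mul, prod_range_add, h3, h3', prod_range_succ]
      ring

/-- the value of `C_n` -/
theorem Cn_cong {κ : ℕ} (hκ : 0 < κ) :
    I (4 * κ + 1) 2 (V11307.Q.q ^ (2 * κ) * (∏ i ∈ range κ, r V11307.Q.q i) ^ 2 - Cn (4 * κ + 1)) := by
  set n := 4 * κ + 1 with hn
  have hn0 : 0 < n := by omega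
  have hq : q = V11307.Q.q := rfl
  have hq1 : (1 : RatFunc ℚ) - V11307.Q.q ≠ 0 := by
    have := one_sub_ne (k := 1) one_pos
    rwa [pow_one] at this
  have nd : ∀ e, 0 < e → e < n → ¬ n ∣ e := fun e h1 h2 hd => by
    have := Nat.le_of_dvd h1 hd; omega
  have nd' : ∀ e, 0 < e → e < n → ¬ n ∣ n + e := fun e h1 h2 hd => by
    rw [Nat.dvd_add_right dvd_rfl] at hd; exact nd e h1 h2 hd
  set Nn := ∏ j ∈ range κ, ((1 - V11307.Q.q ^ (n - (4 * j + 2))) * (1 - V11307.Q.q ^ (n + (4 * j + 2)))) with hNn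
  set Dn := ∏ j ∈ range κ, ((1 - V11307.Q.q ^ (n - (4 * j + 4))) * (1 - V11307.Q.q ^ (n + (4 * j + 4)))) with hDn
  have hC : Cn n = Nn / Dn := by
    have e1 : qPoch (q ^ 3) (q ^ 4) ((n - 1) / 2) = Nn := by
      rw [show (n - 1) / 2 = κ + κ by omega, qPoch, prod_range_add, hNn, prod_mul_distrib]
      congr 1
      · rw [← prod_range_reflect (fun j => 1 - q ^ 3 * (q ^ 4) ^ j) κ]
        refine prod_congr rfl fun j hj => ?_
        have hj := mem_range.1 hj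
        rw [← pow_mul, ← pow_add, hq]
        congr 2; omega
      · refine prod_congr rfl fun j hj => ?_
        rw [← pow_mul, ← pow_add, hq]
        congr 2; omega
    have e2 : (1 - V11307.Q.q) * qPoch (q ^ 5) (q ^ 4) ((n - 1) / 2) = (1 - V11307.Q.q ^ n) * Dn := by
      rw [show (n - 1) / 2 = κ + κ by omega, qPoch, prod_range_add, hDn, prod_mul_distrib]
      have e3 : (1 - V11307.Q.q) * ∏ x ∈ range κ, (1 - q ^ 5 * (q ^ 4) ^ x) =
          (1 - V11307.Q.q ^ n) * ∏ j ∈ range κ, (1 - V11307.Q.q ^ (4 * j + 1)) := by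
        have h1 := prod_range_succ (fun j => 1 - V11307.Q.q ^ (4 * j + 1)) κ
        have h2 := prod_range_succ' (fun j => 1 - V11307.Q.q ^ (4 * j + 1)) κ
        rw [h1] at h2
        simp only [mul_zero, zero_add, pow_one] at h2
        rw [← hn] at h2
        have h3 : ∏ x ∈ range κ, (1 - q ^ 5 * (q ^ 4) ^ x) =
            ∏ k ∈ range κ, (1 - V11307.Q.q ^ (4 * (k + 1) + 1)) := by
          refine prod_congr rfl fun j _ => ?_
          rw [← pow_mul, ← pow_add, hq]; congr 2; ring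
        rw [h3, mul_comm, ← h2, mul_comm]
      have e4 : ∏ j ∈ range κ, (1 - V11307.Q.q ^ (4 * j + 1)) =
          ∏ j ∈ range κ, (1 - V11307.Q.q ^ (n - (4 * j + 4))) := by
        rw [← prod_range_reflect (fun j => 1 - V11307.Q.q ^ (4 * j + 1)) κ]
        refine prod_congr rfl fun j hj => ?_
        have hj := mem_range.1 hj
        congr 2; omega
      have e5 : ∏ x ∈ range κ, (1 - q ^ 5 * (q ^ 4) ^ (κ + x)) =
          ∏ j ∈ range κ, (1 - V11307.Q.q ^ (n + (4 * j + 4))) := by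
        refine prod_congr rfl fun j _ => ?_
        rw [← pow_mul, ← pow_add, hq]; congr 2; omega
      rw [← mul_assoc, e3, e4, e5]
      ring
    have e6 : ∑ i ∈ range n, q ^ i = (1 - V11307.Q.q ^ n) / (1 - V11307.Q.q) := by
      rw [eq_div_iff hq1]; exact geom_sum_mul_neg V11307.Q.q n
    have hqn := one_sub_ne hn0
    have hDn0 : Dn ≠ 0 := by
      rw [hDn, prod_ne_zero_iff]
      intro j hj
      have hj := mem_range.1 hj
      exact mul_ne_zero (one_sub_ne (by omega)) (one_sub_ne (by omega))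
    have hP0 : qPoch (q ^ 5) (q ^ 4) ((n - 1) / 2) ≠ 0 := by
      intro h0
      rw [h0, mul_zero] at e2
      exact (mul_ne_zero hqn hDn0) e2.symm
    rw [Cn, e1, e6, div_eq_div_iff hP0 hDn0]
    rw [div_mul_eq_mul_div, div_mul_eq_mul_div, div_eq_iff hq1]
    linear_combination -Nn * e2
  have hDU : IsU n Dn := by
    rw [hDn]
    refine IsU.prod fun j hj => ?_
    have hj := mem_range.1 hj
    exact (one_sub_U hn0 (nd _ (by omega) (by omega))).mul (one_sub_U hn0 (nd' _ (by omega) (by omega)))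
  have hgen : ∀ c : ℕ, 2 ≤ c → c ≤ 4 → I n 2 (∏ j ∈ range κ, ((1 - V11307.Q.q ^ (n - (4 * j + c))) *
      (1 - V11307.Q.q ^ (n + (4 * j + c)))) -
      ∏ j ∈ range κ, ((-V11307.Q.q ^ (n - (4 * j + c))) * (1 - V11307.Q.q ^ (4 * j + c)) ^ 2)) := by
    intro c hc hc4
    refine I.prod_congr (fun j hj => ?_) (fun j _ => ?_) (fun j _ => ?_)
    · have hj := mem_range.1 hj
      exact pair_cong hn0 (by omega)
    · exact mul_mem (sub_mem (one_mem _) (pow_mem q_mem _)) (sub_mem (one_mem _) (pow_mem q_mem _))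
    · exact mul_mem (neg_mem (pow_mem q_mem _)) (pow_mem (sub_mem (one_mem _) (pow_mem q_mem _)) _)
  have g2 := hgen 2 le_rfl (by norm_num)
  have g4 := hgen 4 (by norm_num) le_rfl
  rw [← hNn] at g2
  rw [← hDn] at g4
  set N' := ∏ j ∈ range κ, ((-V11307.Q.q ^ (n - (4 * j + 2))) * (1 - V11307.Q.q ^ (4 * j + 2)) ^ 2) with hN'
  set D' := ∏ j ∈ range κ, ((-V11307.Q.q ^ (n - (4 * j + 4))) * (1 - V11307.Q.q ^ (4 * j + 4)) ^ 2) with hD'
  have hD'U : IsU n D' := by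
    rw [hD']
    refine IsU.prod fun j hj => ?_
    have hj := mem_range.1 hj
    exact (qUn hn0 _).neg.mul ((one_sub_U hn0 (nd _ (by omega) (by omega))).pow 2)
  have hN'm : N' ∈ R n := by
    rw [hN']
    exact prod_mem fun j _ => mul_mem (neg_mem (pow_mem q_mem _))
      (pow_mem (sub_mem (one_mem _) (pow_mem q_mem _)) _)
  have hE : N' / D' = V11307.Q.q ^ (2 * κ) * (∏ i ∈ range κ, r V11307.Q.q i) ^ 2 := by
    rw [hN', hD', ← prod_div_distrib, ← prod_pow]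
    have h0 : V11307.Q.q ^ (2 * κ) = ∏ _j ∈ range κ, V11307.Q.q ^ 2 := by
      rw [prod_const, card_range, ← pow_mul]
    rw [h0, ← prod_mul_distrib]
    refine prod_congr rfl fun j hj => ?_
    have hj := mem_range.1 hj
    have h1 : V11307.Q.q ^ (n - (4 * j + 2)) = V11307.Q.q ^ (n - (4 * j + 4)) * V11307.Q.q ^ 2 := by
      rw [← pow_add]; congr 1; omega
    have h2 := pow_ne_zero (n - (4 * j + 4)) q_ne
    rw [h1, r]
    have h3 : (1 : RatFunc ℚ) - V11307.Q.q ^ (4 * j + 4) ≠ 0 := one_sub_ne (by omega)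
    field_simp
  have := I.div_congr g2 hN'm hDU hD'U g4
  rw [hE, ← hC] at this
  exact I.symm this

/-- Main congruence in local form. -/
theorem main_I (m κ : ℕ) (hκ : 0 < κ) :
    I (4 * κ + 1) 2 (S m (4 * κ + 1) - Cn (4 * κ + 1) * RatFunc.C (T m)) := by
  set n := 4 * κ + 1 with hn
  have hn0 : 0 < n := by omega
  have hq : q = V11307.Q.q := rfl
  have H := hyp21 (2 * κ) (by omega) (d := fun _ => 2) (Or.inr fun _ => rfl)
  have H' := hyp42 (2 * κ) (by omega) (d := fun _ => 2) (Or.inr fun _ => rfl)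
  rw [show 2 * (2 * κ) + 1 = n by omega] at H H'
  set C : RatFunc ℚ := V11307.Q.q ^ (2 * κ) * (∏ i ∈ range κ, r V11307.Q.q i) ^ 2 with hC
  have hW : ∀ k, w V11307.Q.q k ∈ R n := fun k => mul_mem (pow_mem q_mem _) (H'.single k)
  have nd : ∀ e, 0 < e → e < n → ¬ n ∣ e := fun e h1 h2 hd => by
    have := Nat.le_of_dvd h1 hd; omega
  have hr1 : ∏ i ∈ range κ, r V11307.Q.q i ∈ R n := by
    refine prod_mem fun i hi => ?_
    have hi := mem_range.1 hi
    rw [r, div_eq_mul_inv]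
    exact mul_mem (sub_mem (one_mem _) (pow_mem q_mem _))
      (one_sub_U hn0 (nd _ (by omega) (by omega))).2.2
  have hrn : ∀ t, r (V11307.Q.q ^ n) t ∈ R n := by
    intro t
    have h0 := one_sub_ne hn0
    rw [r, ← pow_mul, ← pow_mul, mul_comm n, mul_comm n]
    have : (1 - V11307.Q.q ^ ((4 * t + 2) * n)) / (1 - V11307.Q.q ^ ((4 * t + 4) * n)) =
        ((1 - V11307.Q.q ^ ((4 * t + 2) * n)) / (1 - V11307.Q.q ^ n)) /
          ((1 - V11307.Q.q ^ ((4 * t + 4) * n)) / (1 - V11307.Q.q ^ n)) := by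
      rw [div_div_div_cancel_right₀ h0]
    rw [this]
    exact ((geom_U_nat hn0 (by omega)).div (geom_U_nat hn0 (by omega))).2.1
  have main := H.main (fun k => w V11307.Q.q k) hW C (fun t => w (V11307.Q.q ^ n) t) (by
      intro l
      have hl : (2 * l + 1) * n = 2 * (l * n + 2 * κ) + 1 := by rw [hn]; ring
      have c1 := cf4 q_ne (l * n + 2 * κ)
      have c2 := cf4 (pow_ne_zero n q_ne) l
      have e1 : ∑ k ∈ range (l * n + 2 * κ + 1), w V11307.Q.q k *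
          ∏ u ∈ range k, rho (fun i => 2 * i + 1) (fun i => 2 * i + 2) (fun _ => 2)
            (sv ((2 * l + 1) * n)) u =
          ∑ k ∈ range (l * n + 2 * κ + 1), t4 V11307.Q.q (l * n + 2 * κ) k := by
        rw [hl, ← c1]
        rfl
      have e2 : ∑ t ∈ range (l + 1), w (V11307.Q.q ^ n) t *
          ∏ u ∈ range t, EE' (fun i => 2 * i + 1) (fun i => 2 * i + 2) (fun _ => 2) n
            (sv ((2 * l + 1) * n)) u =
          ∑ k ∈ range (l + 1), t4 (V11307.Q.q ^ n) l k := by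
        rw [← c2]
        refine sum_congr rfl fun t _ => ?_
        rw [w]
        congr 1
        refine prod_congr rfl fun u _ => ?_
        simp only [EE']
        rw [f_eq_mul, f_eq_mul, sv_eq_mul]
      rw [e1, e2]
      rcases Nat.even_or_odd' l with ⟨v, hv | hv⟩
      · subst hv
        have h1 : 2 * v * n + 2 * κ = 2 * (v * n + κ) := by ring
        rw [h1, sum4_even q_ne q_ne_one', sum4_even (pow_ne_zero n q_ne) (q_pow_ne_one hn0)]
        obtain ⟨β, hβ1, hβ2, hβ3⟩ := block_r_all hκ v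
        rw [← hn] at hβ1 hβ2 hβ3
        have e3 : ∏ i ∈ range (v * n + κ), (1 - V11307.Q.q ^ (4 * i + 2)) / (1 - V11307.Q.q ^ (4 * i + 4)) =
            (∏ i ∈ range κ, r V11307.Q.q i) * ((∏ t ∈ range v, r (V11307.Q.q ^ n) t) * β) := by
          rw [← hβ3, ← prod_range_add, add_comm]; rfl
        have e4 : ∏ i ∈ range v, (1 - (V11307.Q.q ^ n) ^ (4 * i + 2)) / (1 - (V11307.Q.q ^ n) ^ (4 * i + 4)) =
            ∏ t ∈ range v, r (V11307.Q.q ^ n) t := rfl
        have e5 : V11307.Q.q ^ (2 * (v * n + κ)) = V11307.Q.q ^ (2 * κ) * (V11307.Q.q ^ n) ^ (2 * v) := by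
          rw [← pow_mul, ← pow_add]; congr 1; ring
        rw [e3, e4, e5, hC]
        have e6 : V11307.Q.q ^ (2 * κ) * (V11307.Q.q ^ n) ^ (2 * v) * ((∏ i ∈ range κ, r V11307.Q.q i) *
            ((∏ t ∈ range v, r (V11307.Q.q ^ n) t) * β)) ^ 2 -
            V11307.Q.q ^ (2 * κ) * (∏ i ∈ range κ, r V11307.Q.q i) ^ 2 * ((V11307.Q.q ^ n) ^ (2 * v) *
              (∏ t ∈ range v, r (V11307.Q.q ^ n) t) ^ 2) =
            (β - 1) * ((β + 1) * (V11307.Q.q ^ (2 * κ) * (V11307.Q.q ^ n) ^ (2 * v) *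
              ((∏ i ∈ range κ, r V11307.Q.q i) ^ 2 * (∏ t ∈ range v, r (V11307.Q.q ^ n) t) ^ 2))) := by
          ring
        rw [e6]
        exact hβ1.mul_R (mul_mem (add_mem hβ2 (one_mem _)) (mul_mem (mul_mem (pow_mem q_mem _)
          (pow_mem (pow_mem q_mem _) _)) (mul_mem (pow_mem hr1 _) (pow_mem (prod_mem fun t _ => hrn t) _))))
      · subst hv
        have h1 : (2 * v + 1) * n + 2 * κ = 2 * (v * n + 3 * κ) + 1 := by rw [hn]; ring
        rw [h1, sum4_odd q_ne q_ne_one', sum4_odd (pow_ne_zero n q_ne) (q_pow_ne_one hn0), mul_zero,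
          sub_zero]
        exact I.zero) m
  -- translate
  have hS : S m n = ∑ k ∈ range (m * n), w V11307.Q.q k *
      ∏ u ∈ range k, rho (fun i => 2 * i + 1) (fun i => 2 * i + 2) (fun _ => 2) 2 u := by
    rw [S]
    refine sum_congr rfl fun k _ => ?_
    have e1 : qPoch q (q ^ 2) k = ∏ u ∈ range k, (1 - V11307.Q.q ^ (2 * u + 1)) := by
      rw [qPoch]
      refine prod_congr rfl fun u _ => ?_
      rw [← pow_mul, ← pow_succ']; rfl
    have e2 : qPoch (q ^ 2) (q ^ 2) k = ∏ u ∈ range k, (1 - V11307.Q.q ^ (2 * u + 2)) := by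
      rw [qPoch]
      refine prod_congr rfl fun u _ => ?_
      rw [← pow_mul, ← pow_add, add_comm]; rfl
    have e3 : qPoch (q ^ 2) (q ^ 4) k = ∏ u ∈ range k, (1 - V11307.Q.q ^ (4 * u + 2)) := by
      rw [qPoch]
      refine prod_congr rfl fun u _ => ?_
      rw [← pow_mul, ← pow_add, add_comm]; rfl
    have e4 : qPoch (q ^ 4) (q ^ 4) k = ∏ u ∈ range k, (1 - V11307.Q.q ^ (4 * u + 4)) := by
      rw [qPoch]
      refine prod_congr rfl fun u _ => ?_
      rw [← pow_mul, ← pow_add, add_comm]; rfl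
    have e5 : ∏ u ∈ range k, rho (fun i => 2 * i + 1) (fun i => 2 * i + 2) (fun _ => 2) 2 u =
        (∏ u ∈ range k, (1 - V11307.Q.q ^ (2 * u + 1)) / (1 - V11307.Q.q ^ (2 * u + 2))) ^ 2 := by
      rw [← prod_pow]
      refine prod_congr rfl fun u _ => ?_
      simp only [rho, f_two]
      rw [div_pow]
    rw [a, e5, e1, e2, e3, e4, w, prod_div_distrib, prod_div_distrib, hq]
    simp only [div_eq_mul_inv, mul_inv]
    ring
  have hCm : C ∈ R n := mul_mem (pow_mem q_mem _) (pow_mem hr1 _)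
  have hCn := Cn_cong hκ
  rw [← hn, ← hC] at hCn
  have hc : I n 2 (∑ t ∈ range m, w (V11307.Q.q ^ n) t *
      ∏ u ∈ range t, EE' (fun i => 2 * i + 1) (fun i => 2 * i + 2) (fun _ => 2) n 2 u -
      RatFunc.C (T m)) := by
    rw [T, map_sum, ← sum_sub_distrib]
    apply I.sum
    intro t _
    have h2ne : (2 : RatFunc ℚ) ≠ 0 := two_ne_zero
    obtain ⟨hprod, hπmem, hϖmem⟩ := prod_ratio_two hn0 (fun u => 2 * u + 1) (fun u => 2 * u + 2)
      (fun u => by omega) t (z := -(2 : RatFunc ℚ)⁻¹) (by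
        intro u
        push_cast
        ring)
    obtain ⟨hprod', hπmem', hϖmem'⟩ := prod_ratio_two hn0 (fun u => 4 * u + 2) (fun u => 4 * u + 4)
      (fun u => by omega) t (z := -1) (by
        intro u
        push_cast
        field_simp
        ring)
    have hϖeq : ∏ u ∈ range t, (((4 * u + 2 : ℕ) : RatFunc ℚ) / ((4 * u + 4 : ℕ) : RatFunc ℚ)) =
        ∏ u ∈ range t, (((2 * u + 1 : ℕ) : RatFunc ℚ) / ((2 * u + 2 : ℕ) : RatFunc ℚ)) := by
      refine prod_congr rfl fun u _ => ?_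
      have h1 : ((4 * u + 2 : ℕ) : RatFunc ℚ) = 2 * ((2 * u + 1 : ℕ) : RatFunc ℚ) := by push_cast; ring
      have h3 : ((4 * u + 4 : ℕ) : RatFunc ℚ) = 2 * ((2 * u + 2 : ℕ) : RatFunc ℚ) := by push_cast; ring
      rw [h1, h3, mul_div_mul_left _ _ h2ne]
    rw [hϖeq] at hprod' hϖmem'
    set π := ∏ u ∈ range t, (1 - V11307.Q.q ^ ((2 * u + 1) * n)) / (1 - V11307.Q.q ^ ((2 * u + 2) * n)) with hπ
    set π' := ∏ u ∈ range t, (1 - V11307.Q.q ^ ((4 * u + 2) * n)) / (1 - V11307.Q.q ^ ((4 * u + 4) * n)) with hπ'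
    set ϖ := ∏ u ∈ range t, (((2 * u + 1 : ℕ) : RatFunc ℚ) / ((2 * u + 2 : ℕ) : RatFunc ℚ)) with hϖ
    set ε := eps n with hε
    have hεI := eps_I hn0
    have e1 : w (V11307.Q.q ^ n) t *
        ∏ u ∈ range t, EE' (fun i => 2 * i + 1) (fun i => 2 * i + 2) (fun _ => 2) n 2 u =
        ((1 + ε) * (1 + ε)) ^ t * (π' * (π * π)) := by
      have e2 : ∏ u ∈ range t, EE' (fun i => 2 * i + 1) (fun i => 2 * i + 2) (fun _ => 2) n 2 u = π * π := by
        rw [hπ, ← prod_mul_distrib]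
        refine prod_congr rfl fun u _ => ?_
        simp only [EE', f_two]
        rw [div_mul_div_comm, sq, sq]
      have e3 : ∏ u ∈ range t, (1 - (V11307.Q.q ^ n) ^ (4 * u + 2)) / (1 - (V11307.Q.q ^ n) ^ (4 * u + 4))
          = π' := by
        rw [hπ']
        refine prod_congr rfl fun u _ => ?_
        rw [← pow_mul, ← pow_mul, mul_comm n, mul_comm n]
      have e4 : 1 + ε = V11307.Q.q ^ n := by rw [hε, eps]; ring
      rw [e2, w, e3, e4, pow_mul (V11307.Q.q ^ n) 2, sq]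
      ring
    have e4 : RatFunc.C (rising (1 / 2) t ^ 3 / (t.factorial : ℚ) ^ 3) = ϖ * (ϖ * ϖ) := by
      have e5 : RatFunc.C (rising (1 / 2) t / (t.factorial : ℚ)) = ϖ := by
        have : rising (1 / 2) t / (t.factorial : ℚ) =
            ∏ u ∈ range t, (((2 * u + 1 : ℕ) : ℚ) / ((2 * u + 2 : ℕ) : ℚ)) := by
          rw [← prod_range_add_one_eq_factorial, rising]
          push_cast
          rw [← prod_div_distrib]
          refine prod_congr rfl fun u _ => ?_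
          have : (u : ℚ) + 1 ≠ 0 := by positivity
          field_simp
          ring
        rw [this, map_prod, hϖ]
        refine prod_congr rfl fun u _ => ?_
        rw [map_div₀, map_natCast, map_natCast]
      rw [← div_pow, map_pow, e5]
      ring
    rw [e1, e4]
    have hu1 : (1 + ε) ∈ R n := add_mem (one_mem _) hεI.mem
    have hmε : ∀ z ∈ R n, (1 + z * ε) ∈ R n := fun z hz => add_mem (one_mem _) (mul_mem hz hεI.mem)
    have hz1 : (-(2 : RatFunc ℚ)⁻¹) ∈ R n := neg_mem half_mem'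
    have hz2 : (-1 : RatFunc ℚ) ∈ R n := neg_mem (one_mem _)
    have m1 : ϖ * (1 + -(2 : RatFunc ℚ)⁻¹ * ε) ^ t ∈ R n := mul_mem hϖmem (pow_mem (hmε _ hz1) _)
    have m2 : ϖ * (1 + -1 * ε) ^ t ∈ R n := mul_mem hϖmem (pow_mem (hmε _ hz2) _)
    have h3 := I.mul_congr hprod' (I.mul_congr hprod hprod m1 hπmem) m2 (mul_mem hπmem hπmem)
    have h4 := I.R_mul (pow_mem (mul_mem hu1 hu1) t) h3
    -- the unit is congruent to 1
    have hX : I n 2 (((1 + ε) * (1 + ε)) * ((1 + -1 * ε) *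
        ((1 + -(2 : RatFunc ℚ)⁻¹ * ε) * (1 + -(2 : RatFunc ℚ)⁻¹ * ε))) - 1) := by
      have h5 := (hεI.mul hεI).mul_R (y := (2 : RatFunc ℚ)⁻¹ * (2 : RatFunc ℚ)⁻¹ *
        (-7 + 1 * ε + 3 * (ε * ε) - ε * ε * ε)) (mul_mem (mul_mem half_mem' half_mem')
          (sub_mem (add_mem (add_mem (neg_mem (ofNat_mem _ 7)) (mul_mem (one_mem _) hεI.mem))
            (mul_mem (ofNat_mem _ 3) (mul_mem hεI.mem hεI.mem))) (mul_mem (mul_mem hεI.mem hεI.mem) hεI.mem)))
      convert h5 using 1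
      field_simp
      ring
    have hXp : I n 2 ((((1 + ε) * (1 + ε)) * ((1 + -1 * ε) *
        ((1 + -(2 : RatFunc ℚ)⁻¹ * ε) * (1 + -(2 : RatFunc ℚ)⁻¹ * ε)))) ^ t - 1) := by
      have h7 := pow_first_order (hX.mono (l := 1) (by norm_num)) t
      have h8 := h7.add (I.R_mul (natCast_mem (R n) t) hX)
      rw [add_sub_cancel] at h8
      convert h8 using 1
      ring
    have h9 := hXp.mul_R (mul_mem hϖmem (mul_mem hϖmem hϖmem))
    have h10 := h4.add h9
    convert h10 using 1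
    simp only [mul_pow]
    ring
  have hfin := (main.add (I.R_mul hCm hc)).add (hCn.mul_R (y := RatFunc.C (T m)) (by
    have h1 : RatFunc.C (T m) = φ (Polynomial.C (T m)) := (RatFunc.algebraMap_C _).symm
    rw [h1]; exact φ_mem _))
  rw [hS]
  convert hfin using 1
  ring

/-- The congruence for all `m ≥ 1` and all `n > 1` with `n ≡ 1 (mod 4)`. -/
theorem result (m n : ℕ) (_hm : 1 ≤ m) (hn : 1 < n) (hn4 : n % 4 = 1) :
    CongSq n (S m n) (Cn n * RatFunc.C (T m)) := by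
  obtain ⟨κ, rfl⟩ : ∃ κ, n = 4 * κ + 1 := ⟨n / 4, by omega⟩
  obtain ⟨P, Q, hQ, ⟨A, rfl⟩, h⟩ := (main_I m κ (by omega)).exists_frac
  exact ⟨A, Q, hQ, h⟩

end

end Pool.Agent.Results.MP_c25fd9_nt.Legendre
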